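import Pool.Agent.Helper98.DE.St
import Pool.Agent.Helper12.MA.Lib
import Pool.Agent.Helper35.PM.All

/-!
# Project DE, module EU3: 3-connected planar graphs without triangles
-/

set_option autoImplicit false

namespace Pool.Agent.Helper80.DE

open Pool.Agent.Helper98.DE
open Pool.Agent.Helper51.AJ (IsMinor Planar Apex ExMinor Con Tch)
open Pool.Agent.Helper12.NK (rst Kc cnt)
open Pool.Agent.Helper12.MA (dl Srv)
open Pool.Agent.Helper35.PM (Rot)
open Equiv Equiv.Perm

private theorem class_count {D : Type} [Fintype D] (σ : Perm D) (k : ℕ)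
    (h : ∀ d, ∃ s : Finset D, s.card = k ∧ ∀ e ∈ s, σ.SameCycle d e) :
    Nat.card (Quotient (SameCycle.setoid σ)) * k ≤ Fintype.card D := by
  classical
  have hf : Fintype (Quotient (SameCycle.setoid σ)) := Fintype.ofFinite _
  rw [Nat.card_eq_fintype_card]
  have h1 : Fintype.card D = ∑ q : Quotient (SameCycle.setoid σ),
      (Finset.univ.filter
        (fun d : D => (Quotient.mk _ d : Quotient (SameCycle.setoid σ)) = q)).card := by
    rw [← Finset.card_univ]
    exact Finset.card_eq_sum_card_fiberwise (fun _ _ => Finset.mem_coe.2 (Finset.mem_univ _))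
  have h2 : ∀ q ∈ (Finset.univ : Finset (Quotient (SameCycle.setoid σ))),
      k ≤ (Finset.univ.filter
        (fun d : D => (Quotient.mk _ d : Quotient (SameCycle.setoid σ)) = q)).card := by
    intro q _
    obtain ⟨d, rfl⟩ := Quotient.exists_rep q
    obtain ⟨s, hs, hs'⟩ := h d
    rw [← hs]
    apply Finset.card_le_card
    intro e he
    rw [Finset.mem_filter]
    exact ⟨Finset.mem_univ _, Quotient.sound ((hs' e he).symm)⟩
  have h3 := Finset.card_nsmul_le_sum _ _ k h2
  rw [Finset.card_univ, smul_eq_mul] at h3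
  omega

private theorem phi_ne {V : Type} {G : SimpleGraph V} (R : Rot G) (d : G.Dart) : R.φ d ≠ d := by
  intro h
  have h1 := R.φ_fst d
  rw [h] at h1
  exact G.ne_of_adj d.adj h1

private theorem phi2_ne {V : Type} {G : SimpleGraph V} (R : Rot G)
    (hdeg : ∀ a b, G.Adj a b → ∃ c, c ≠ b ∧ G.Adj a c) (d : G.Dart) : R.φ (R.φ d) ≠ d := by
  intro h
  have h1 := R.φ_fst d
  have h2 := R.φ_fst (R.φ d)
  rw [h] at h2
  have h3 : R.φ d = d.symm := by
    apply SimpleGraph.Dart.ext
    exact Prod.ext h1 h2.symm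
  rw [R.φ_apply] at h3
  obtain ⟨c, hc, hadj⟩ := hdeg d.snd d.fst d.adj.symm
  have h4 : R.r.SameCycle d.symm ⟨(d.snd, c), hadj⟩ := R.trans _ _ rfl
  have h5 : Function.IsFixedPt R.r d.symm := h3
  have h6 := (h4.eq_of_left h5)
  have h7 := congrArg (fun e : G.Dart => e.snd) h6
  exact hc h7.symm

private theorem same1 {D : Type} (σ : Perm D) (d : D) : σ.SameCycle d (σ d) := ⟨1, by simp⟩

private theorem same2 {D : Type} (σ : Perm D) (d : D) : σ.SameCycle d (σ (σ d)) :=
  (same1 σ d).trans (same1 σ _)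

private theorem same3 {D : Type} (σ : Perm D) (d : D) : σ.SameCycle d (σ (σ (σ d))) :=
  (same2 σ d).trans (same1 σ _)

private theorem phi3_ne {V : Type} {G : SimpleGraph V} (R : Rot G) (hT : TFr G Set.univ)
    (d : G.Dart) : R.φ (R.φ (R.φ d)) ≠ d := by
  intro h
  have h1 := R.φ_fst d
  have h2 := R.φ_fst (R.φ d)
  have h3 := R.φ_fst (R.φ (R.φ d))
  rw [h] at h3
  refine hT d.fst trivial d.snd trivial (R.φ d).snd trivial d.adj ?_ ?_
  · have := (R.φ d).adj
    rwa [h1] at this
  · have := (R.φ (R.φ d)).adj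
    rw [h2, ← h3] at this
    exact this.symm

/-- **Module EU3.** -/
theorem hEU3 : StEU3 := by
  classical
  intro V _ G hK hP hT
  have hG : rst G Set.univ = G := by
    ext a b
    exact ⟨fun h => h.1, fun h => ⟨h, trivial, trivial⟩⟩
  have hR : Pool.Agent.Helper12.NK.RPlanar (rst G Set.univ) :=
    Pool.Agent.Helper12.MA.nKUR V G Set.univ hK (by rw [hG]; exact hP)
  rw [hG] at hR
  obtain ⟨R⟩ := hR
  have hdeg : ∀ a b, G.Adj a b → ∃ c, c ≠ b ∧ G.Adj a c := by
    intro a b hab
    have h1 := (Pool.Agent.Helper12.MA.nKCA V G Set.univ).2.2.1 3 hK a trivial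
    by_contra hcon
    push Not at hcon
    have h2 : {c | c ∈ Set.univ ∧ G.Adj a c} ⊆ {b} := by
      intro c hc
      by_contra hcb
      exact hcon c hcb hc.2
    have h3 := Set.ncard_le_ncard h2 (Set.toFinite _)
    rw [Set.ncard_singleton] at h3
    omega
  have hconn : G.Connected := by
    have h1 := hK.2 ∅ (by rw [Set.ncard_empty]; norm_num)
    have h2 : (Set.univ : Set V) \ ∅ = Set.univ := by
      ext x; simp
    rw [h2] at h1
    exact Pool.Agent.Helper51.AJ.con_univ.1 h1
  have hcard : 3 < Fintype.card V := by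
    have h1 := hK.1
    rwa [Set.ncard_univ, Nat.card_eq_fintype_card] at h1
  have h1 := Pool.Agent.Helper35.PM.stEul V G R hconn (by omega)
  have h2 := class_count R.φ 4 (by
    intro d
    have n1 := phi_ne R d
    have n2 := phi2_ne R hdeg d
    have n3 := phi3_ne R hT d
    have i1 : ∀ x y, x ≠ y → R.φ x ≠ R.φ y := fun x y h h' => h (R.φ.injective h')
    refine ⟨{d, R.φ d, R.φ (R.φ d), R.φ (R.φ (R.φ d))}, ?_, ?_⟩
    · rw [Finset.card_insert_of_notMem, Finset.card_eq_three.2
        ⟨_, _, _, i1 _ _ n1.symm, i1 _ _ n2.symm, i1 _ _ (i1 _ _ n1.symm), rfl⟩]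
      simp only [Finset.mem_insert, Finset.mem_singleton, not_or]
      exact ⟨n1.symm, n2.symm, n3.symm⟩
    · intro e he
      simp only [Finset.mem_insert, Finset.mem_singleton] at he
      rcases he with rfl | rfl | rfl | rfl
      · exact SameCycle.refl _ _
      · exact same1 _ _
      · exact same2 _ _
      · exact same3 _ _)
  have h3 : Fintype.card G.Dart = 2 * G.edgeFinset.card :=
    SimpleGraph.dart_card_eq_twice_card_edges _
  have h4 : G.edgeSet.ncard = G.edgeFinset.card := by
    rw [← SimpleGraph.coe_edgeFinset, Set.ncard_coe_finset]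
  rw [h4]
  rw [h3] at h2
  omega

end Pool.Agent.Helper80.DE
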